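import Pool.Agent.H57.AR.Targets
import Pool.Agent.H57.EQD.BKS

/-!
# All reducts, all arities: systems of blocks (row BKSR of ar_modules)
-/

set_option autoImplicit false
set_option linter.unusedVariables false

namespace Pool.Agent.H95.AR

open Pool.Agent.H57.AR
open Pool.Agent.H68.BP Pool.Agent.H58.SF Pool.Agent.H53.GC Pool.Agent.H53.NR Pool.Agent.H53.GR
open Pool.Agent.H57.SO (Pal Col vt Exa Sb FBl Sbn Bh fib sigF)
open Pool.Agent.H57.EQD (pat_ex Nm Nf key key_inj key_pat)
open Function

theorem pat_iff {V : Type} (r : Fin 3) (x y x' y' : V) :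
    pat r x y = pat r x' y' ↔ x = x' ∧ y = y' := by
  constructor
  · intro h
    have h0 := congrFun h 0
    have h1 := congrFun h 1
    have h2 := congrFun h 2
    fin_cases r
    · exact ⟨h0, h2⟩
    · exact ⟨h0, h1⟩
    · exact ⟨h1, h0⟩
  · rintro ⟨rfl, rfl⟩
    rfl

section

variable {V S X : Type} {σ ρ : Sig}

/-- the condition for a tuple of names -/
def Cn (𝔹 : Str ρ V) (R : Fin ρ.m) (z : Fin (ρ.ar R) → Nm V) : Prop :=
  𝔹 R (fun i => (z i).2) ∧ ∀ i j, z i = z j ∨
    ((∃ l, (z i).1 l = (z i).2 ∧ (z j).1 l = (z j).2) ∧ (z i).2 ≠ (z j).2)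

/-- `E` realizes the names of the blocks in `F` -/
structure Rl [LinearOrder V] (P : Pal S X) (𝔹 : Str ρ V) (c : V → V → S ⊕ X)
    (code : (Fin 6 → V) → ℕ) (F : Finset (Fin 6 → V)) (E : Nm V → V) : Prop where
  mono : ∀ n n', Nf F n → Nf F n' → key code n < key code n' → E n < E n'
  str : ∀ (R : Fin ρ.m) (z : Fin (ρ.ar R) → Nm V), (∀ i, Nf F (z i)) →
    (𝔹 R (fun i => E (z i)) ↔ Cn 𝔹 R z)
  col : ∀ n n', Nf F n → Nf F n' → n ≠ n' →
    ¬ ((∃ l, n.1 l = n.2 ∧ n'.1 l = n'.2) ∧ n.2 ≠ n'.2) →
      c (E n) (E n') = Sum.inr (P.fr (vt P c n.2) (vt P c n'.2))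

theorem rl_same [LinearOrder V] {P : Pal S X} {𝔹 : Str ρ V} {c : V → V → S ⊕ X}
    {code : (Fin 6 → V) → ℕ} (hc : Injective code) {F F' : Finset (Fin 6 → V)}
    {E E' : Nm V → V} (hE : Rl P 𝔹 c code F E) (hE' : Rl P 𝔹 c code F' E') {J : Type}
    (n n' : J → Nm V) (hn : ∀ i, Nf F (n i)) (hn' : ∀ i, Nf F' (n' i))
    (hk : ∀ i j, key code (n i) < key code (n j) ↔ key code (n' i) < key code (n' j))
    (hd : ∀ (R : Fin ρ.m) (z : Fin (ρ.ar R) → J),
      Cn 𝔹 R (fun i => n (z i)) ↔ Cn 𝔹 R (fun i => n' (z i))) :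
    SameTp 𝔹 (fun i => E (n i)) (fun i => E' (n' i)) := by
  refine ⟨?_, ?_⟩
  · intro i j
    rcases lt_trichotomy (key code (n i)) (key code (n j)) with h | h | h
    · have h' := (hk i j).1 h
      exact iff_of_true (hE.mono _ _ (hn i) (hn j) h) (hE'.mono _ _ (hn' i) (hn' j) h')
    · have h1 : n i = n j := key_inj hc h
      have h2 : key code (n' i) = key code (n' j) :=
        le_antisymm (not_lt.1 fun h3 => ((hk j i).2 h3).ne h.symm)
          (not_lt.1 fun h3 => ((hk i j).2 h3).ne h)
      have h3 : n' i = n' j := key_inj hc h2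
      have h4 : E (n i) = E (n j) := by rw [h1]
      have h5 : E' (n' i) = E' (n' j) := by rw [h3]
      refine iff_of_false ?_ ?_
      · show ¬ E (n i) < E (n j)
        rw [h4]
        exact lt_irrefl _
      · show ¬ E' (n' i) < E' (n' j)
        rw [h5]
        exact lt_irrefl _
    · have h' := (hk j i).1 h
      exact iff_of_false (lt_asymm (hE.mono _ _ (hn j) (hn i) h))
        (lt_asymm (hE'.mono _ _ (hn' j) (hn' i) h'))
  · funext R z
    exact propext ((hE.str R (fun i => n (z i)) (fun i => hn _)).trans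
      ((hd R z).trans (hE'.str R (fun i => n' (z i)) (fun i => hn' _)).symm))

theorem rl_exists (hSYR : T_SYR) [LinearOrder V] {P : Pal S X} {𝔸 : Str σ V} {𝔹 : Str ρ V} {M : ℕ}
    {c : V → V → S ⊕ X} (hs : StpR P 𝔸 𝔹 M c) {code : (Fin 6 → V) → ℕ} (hc : Injective code)
    (F : Finset (Fin 6 → V)) : ∃ E, Rl P 𝔹 c code F E := by
  classical
  let W : Type := {n : Nm V // Nf F n}
  have hfin : Finite W := by
    have h : (Set.range fun z : F × Fin 6 => ((z.1.1, z.1.1 z.2) : Nm V)).Finite :=
      Set.finite_range _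
    refine (h.subset ?_ : Set.Finite {n : Nm V | Nf F n}).to_subtype
    rintro ⟨v, a⟩ ⟨h1, l, h2⟩
    exact ⟨(⟨v, h1⟩, l), Prod.ext rfl h2⟩
  obtain ⟨e, he, hes, hed, hec⟩ := hSYR σ ρ V S X P 𝔸 𝔹 M c hs W (ℕ ×ₗ (Fin 3 ×ₗ V))
    (fun n => key code n.1) (fun n => n.1.2)
    (fun n n' => ∃ l, n.1.1 l = n.1.2 ∧ n'.1.1 l = n'.1.2)
    ((key_inj hc).comp Subtype.val_injective) (fun n n' ⟨l, h1, h2⟩ => ⟨l, h2, h1⟩)
  obtain ⟨x₀⟩ := hs.base.ne
  refine ⟨fun n => if h : Nf F n then e ⟨n, h⟩ else x₀, ?_, ?_, ?_⟩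
  · intro n n' hn hn' h
    rw [dif_pos hn, dif_pos hn']
    exact (he _ _).2 h
  · intro R z hz
    have h1 : (fun i => if h : Nf F (z i) then e ⟨z i, h⟩ else x₀) = fun i => e ⟨z i, hz i⟩ := by
      funext i
      rw [dif_pos (hz i)]
    rw [h1, hes R (fun i => ⟨z i, hz i⟩)]
    unfold Cn
    refine and_congr Iff.rfl (forall_congr' fun i => forall_congr' fun j => or_congr ?_ Iff.rfl)
    exact ⟨fun h => congrArg Subtype.val h, fun h => Subtype.ext h⟩
  · intro n n' hn hn' h h3
    rw [dif_pos hn, dif_pos hn']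
    exact (hec ⟨n, hn⟩ ⟨n', hn'⟩ (fun h' => h (congrArg Subtype.val h'))).2 h3

end

theorem pf_BKSR (hSYR : T_SYR) : T_BKSR := by
  classical
  intro σ ρ V S X _ P 𝔸 𝔹 M c hs h hO hex
  have := hs.base.cnt
  obtain ⟨code, hc⟩ := exists_injective_nat (Fin 6 → V)
  choose E hE using fun F => rl_exists hSYR hs hc F
  obtain ⟨eF, heF⟩ : ∃ eF : Finset (Fin 6 → V) → (Fin 6 → V) → Fin 6 → V,
      ∀ F v, eF F v = fun l => E F (v, v l) := ⟨fun F v l => E F (v, v l), fun _ _ => rfl⟩
  -- the types do not depend on the finite set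
  have hindep : ∀ (F F' : Finset (Fin 6 → V)) (k : ℕ) (u : Fin k → Fin 6 → V),
      (∀ i, u i ∈ F) → (∀ i, u i ∈ F') →
      pullT h (fun i => eF F (u i)) = pullT h (fun i => eF F' (u i)) := by
    intro F F' k u hu hu'
    refine hO.tinv k _ _ ?_
    simp only [heF]
    exact rl_same hc (hE F) (hE F') (fun q : Fin k × Fin 6 => ((u q.1, u q.1 q.2) : Nm V))
      (fun q : Fin k × Fin 6 => ((u q.1, u q.1 q.2) : Nm V)) (fun q => ⟨hu _, q.2, rfl⟩)
      (fun q => ⟨hu' _, q.2, rfl⟩) (fun _ _ => Iff.rfl) (fun _ _ => Iff.rfl)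
  let h' : Ty ρ (Fin 6 → V) := (fun v w => h.1 (eF {v, w} v) (eF {v, w} w),
    fun R u => h.2 R (fun i => eF (Finset.univ.image u) (u i)))
  have hmain : ∀ (F : Finset (Fin 6 → V)) (k : ℕ) (u : Fin k → Fin 6 → V), (∀ i, u i ∈ F) →
      pullT h' u = pullT h (fun i => eF F (u i)) := by
    intro F k u hu
    refine Prod.ext ?_ ?_
    · funext a b
      show h.1 (eF {u a, u b} (u a)) (eF {u a, u b} (u b)) = h.1 (eF F (u a)) (eF F (u b))
      have h1 := hindep {u a, u b} F 2 ![u a, u b] (by
        intro i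
        fin_cases i <;> simp) (by
        intro i
        fin_cases i
        · exact hu a
        · exact hu b)
      exact congrFun (congrFun (congrArg Prod.fst h1) 0) 1
    · funext R z
      show h.2 R (fun i => eF (Finset.univ.image (fun i => u (z i))) (u (z i))) =
        h.2 R (fun i => eF F (u (z i)))
      have h1 := hindep (Finset.univ.image (fun i => u (z i))) F (ρ.ar R) (fun i => u (z i))
        (fun i => Finset.mem_image.2 ⟨i, Finset.mem_univ _, rfl⟩) (fun i => hu _)
      exact congrFun (congrFun (congrArg Prod.snd h1) R) id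
  refine ⟨h', ?_, ?_⟩
  · -- the identities
    have hgen : ∀ (r : Fin 3) (k : ℕ) (p : Fin k → V × V),
        pullT h' (fun a => pat r (p a).1 (p a).2) = pullT h' (fun a => pat 0 (p a).1 (p a).2) := by
      intro r k p
      let nm : Fin 3 → Fin k × Bool → Nm V := fun r i =>
        (pat r (p i.1).1 (p i.1).2, if i.2 then (p i.1).2 else (p i.1).1)
      let Fr : Fin 3 → Finset (Fin 6 → V) := fun r =>
        Finset.univ.image (fun a => pat r (p a).1 (p a).2)
      have hmem : ∀ (r : Fin 3) (i : Fin k × Bool), Nf (Fr r) (nm r i) := by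
        intro r i
        refine ⟨Finset.mem_image.2 ⟨i.1, Finset.mem_univ _, rfl⟩, ?_⟩
        obtain ⟨l, hl, -⟩ := (pat_ex r (p i.1).1 (p i.1).2 (p i.1).1 (p i.1).2
          (if i.2 then (p i.1).2 else (p i.1).1) (if i.2 then (p i.1).2 else (p i.1).1)).2 (by
            obtain ⟨a, d⟩ := i
            cases d <;> simp)
        exact ⟨l, hl⟩
      have hstep : ∀ r : Fin 3, pullT h' (fun a => pat r (p a).1 (p a).2) =
          pullT h (fun a => pat 0 (E (Fr r) (nm r (a, false))) (E (Fr r) (nm r (a, true)))) := by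
        intro r
        rw [hmain (Fr r) k (fun a => pat r (p a).1 (p a).2)
          (fun a => Finset.mem_image.2 ⟨a, Finset.mem_univ _, rfl⟩)]
        have h1 : (fun a => eF (Fr r) (pat r (p a).1 (p a).2)) = fun a =>
            pat r (E (Fr r) (nm r (a, false))) (E (Fr r) (nm r (a, true))) := by
          funext a
          rw [heF]
          funext l
          exact pat_map (fun s => E (Fr r) (pat r (p a).1 (p a).2, s)) r (p a).1 (p a).2 l
        rw [h1]
        exact congrArg (fun t => pullT t (fun a : Fin k =>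
          (E (Fr r) (nm r (a, false)), E (Fr r) (nm r (a, true))))) (hex r)
      rw [hstep r, hstep 0]
      refine hO.tinv k _ _ ?_
      have h2 : ∀ r : Fin 3, (fun q : Fin k × Fin 6 =>
          pat 0 (E (Fr r) (nm r (q.1, false))) (E (Fr r) (nm r (q.1, true))) q.2) =
          fun q => E (Fr r) (nm r (q.1, pat 0 false true q.2)) := by
        intro r
        funext q
        exact (pat_map (fun d => E (Fr r) (nm r (q.1, d))) 0 false true q.2).symm
      rw [h2 r, h2 0]
      refine rl_same hc (hE _) (hE _) (fun q : Fin k × Fin 6 => nm r (q.1, pat 0 false true q.2))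
        (fun q : Fin k × Fin 6 => nm 0 (q.1, pat 0 false true q.2)) (fun q => hmem r _)
        (fun q => hmem 0 _) ?_ ?_
      · intro i j
        change key code (pat r _ _, _) < key code (pat r _ _, _) ↔
          key code (pat 0 _ _, _) < key code (pat 0 _ _, _)
        rw [key_pat hc, key_pat hc]
      · intro R z
        refine and_congr Iff.rfl (forall_congr' fun i => forall_congr' fun j => or_congr ?_
          (and_congr ?_ Iff.rfl))
        · show (nm r _ = nm r _) ↔ (nm 0 _ = nm 0 _)
          rw [Prod.ext_iff, Prod.ext_iff]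
          refine and_congr ?_ Iff.rfl
          exact (pat_iff r _ _ _ _).trans (pat_iff 0 _ _ _ _).symm
        · exact (pat_ex r _ _ _ _ _ _).trans (pat_ex 0 _ _ _ _ _ _).symm
    intro r
    refine Prod.ext ?_ ?_
    · funext p q
      have h1 := hgen r 2 ![p, q]
      exact congrFun (congrFun (congrArg Prod.fst h1) 0) 1
    · funext R z
      have h1 := hgen r (ρ.ar R) z
      exact congrFun (congrFun (congrArg Prod.snd h1) R) id
  · intro F
    refine ⟨eF F, ?_, ?_, ?_, ?_, fun k u hu => hmain F k u hu⟩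
    · intro v hv w hw hne l l' h1
      rw [heF, heF] at h1
      have hk : key code (v, v l) ≠ key code (w, w l') := fun h2 =>
        hne (congrArg Prod.fst (key_inj hc h2))
      have hv' : Nf F (v, v l) := ⟨hv, l, rfl⟩
      have hw' : Nf F (w, w l') := ⟨hw, l', rfl⟩
      rcases lt_or_gt_of_ne hk with h2 | h2
      · exact ((hE F).mono _ _ hv' hw' h2).ne h1
      · exact ((hE F).mono _ _ hw' hv' h2).ne h1.symm
    · intro l R u hu
      have h1 : (fun i => eF F (u i) l) = fun i => E F (u i, u i l) := by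
        funext i
        rw [heF]
      rw [h1, (hE F).str R (fun i => (u i, u i l)) (fun i => ⟨hu i, l, rfl⟩)]
      refine and_congr Iff.rfl ⟨?_, ?_⟩
      · intro h2 i j h3
        rcases h2 i j with h4 | ⟨-, h4⟩
        · exact congrArg Prod.fst h4
        · exact absurd h3 h4
      · intro h2 i j
        by_cases h3 : u i l = u j l
        · left
          show (u i, u i l) = (u j, u j l)
          rw [h2 i j h3]
        · exact Or.inr ⟨⟨l, rfl, rfl⟩, h3⟩
    · intro v hv l l' hne
      rw [heF] at hne ⊢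
      have hne' : v l ≠ v l' := fun h => hne (by
        show E F (v, v l) = E F (v, v l')
        rw [h])
      refine (hE F).col (v, v l) (v, v l') ⟨hv, l, rfl⟩ ⟨hv, l', rfl⟩
        (fun h => hne' (congrArg Prod.snd h)) ?_
      rintro ⟨⟨l'', h2, h3⟩, -⟩
      exact hne' (h2.symm.trans h3)
    · intro v hv w hw R z hz
      let N : Fin 6 ⊕ Fin 6 → Nm V := Sum.elim (fun l => (v, v l)) (fun l => (w, w l))
      have hN : ∀ a, Nf F (N a) := by
        rintro (l | l)
        · exact ⟨hv, l, rfl⟩
        · exact ⟨hw, l, rfl⟩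
      have hx : ∀ a, Sum.elim (eF F v) (eF F w) a = E F (N a) := by
        rintro (l | l)
        · show eF F v l = _
          rw [heF]
          rfl
        · show eF F w l = _
          rw [heF]
          rfl
      simp only [hx] at hz ⊢
      have h1 := ((hE F).str R (fun i => N (z i)) (fun i => hN _)).1 hz
      have hsame : ∀ i j, (N (z i)).1 = (N (z j)).1 → N (z i) = N (z j) := by
        intro i j hij
        rcases h1.2 i j with h2 | ⟨⟨l, h2, h3⟩, h4⟩
        · exact h2
        · refine absurd ?_ h4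
          show (N (z i)).2 = (N (z j)).2
          rw [← h2, ← h3]
          show (N (z i)).1 l = (N (z j)).1 l
          rw [hij]
      have ha : ∃ a, ∀ i l, z i = Sum.inl l → N (z i) = N a := by
        by_cases hi : ∃ i l, z i = Sum.inl l
        · obtain ⟨i, l, hi⟩ := hi
          refine ⟨z i, fun j l' hj => hsame j i ?_⟩
          rw [hi, hj]
          rfl
        · push Not at hi
          exact ⟨Sum.inl 0, fun i l hil => absurd hil (hi i l)⟩
      have hb : ∃ b, ∀ i l, z i = Sum.inr l → N (z i) = N b := by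
        by_cases hi : ∃ i l, z i = Sum.inr l
        · obtain ⟨i, l, hi⟩ := hi
          refine ⟨z i, fun j l' hj => hsame j i ?_⟩
          rw [hi, hj]
          rfl
        · push Not at hi
          exact ⟨Sum.inl 0, fun i l hil => absurd hil (hi i l)⟩
      obtain ⟨a, ha⟩ := ha
      obtain ⟨b, hb⟩ := hb
      refine ⟨a, b, fun i => ?_⟩
      cases hzi : z i with
      | inl l =>
        left
        have h2 := ha i l hzi
        rw [hzi] at h2
        rw [h2]
      | inr l =>
        right
        have h2 := hb i l hzi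
        rw [hzi] at h2
        rw [h2]

end Pool.Agent.H95.AR
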